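import Pool.Agent.Helper93.HH.FG

/-!
# HH: the sources in no block, the sources of the blocks, the centres of the cells with sources
-/

set_option autoImplicit false

open Set
open Pool.Agent.Helper83.OP
open Pool.Agent.Helper43.HH
open Pool.Agent.Helper93.HH

namespace Pool.Agent.Helper23.HH

open HD

variable {V P Q : Type} [Fintype V] [Fintype P] [Finite Q] {D : HD V P Q} {K : ℕ}
  {S : Sys D K} {e0 : Sym2 V} {D0 M : ℕ} {Φ : Fl S e0 D0 M}

open Classical in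
theorem left_sum (Bl : Bk Φ) (gl : V → ℝ) (hg : ∀ c, 0 ≤ gl c)
    (h : ∀ s ∈ Φ.Sr, Φ.ms s ≤ gl (S.E.ctr s.2.2)) :
    ∑ s ∈ Φ.Sr with (∀ β ∈ Bl.B (S.E.ctr s.2.2) (Bl.cls s), s ∉ β), Φ.ms s ≤
      8 * ∑ c : V, (if (∃ s ∈ Φ.Sr, S.E.ctr s.2.2 = c) then gl c else 0) := by
  obtain ⟨A, hA⟩ : ∃ A : Finset (P × V × V), A = Φ.Sr.filter
      (fun s => ∀ β ∈ Bl.B (S.E.ctr s.2.2) (Bl.cls s), s ∉ β) := ⟨_, rfl⟩
  rw [← hA, ← Finset.sum_fiberwise A (fun s => S.E.ctr s.2.2), Finset.mul_sum]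
  refine Finset.sum_le_sum fun c _ => ?_
  by_cases hc : ∃ s ∈ Φ.Sr, S.E.ctr s.2.2 = c
  swap
  · rw [if_neg hc, Finset.sum_eq_zero]
    · simp
    · intro s hs
      rw [hA, Finset.mem_filter, Finset.mem_filter] at hs
      exact absurd ⟨s, hs.1.1, hs.2⟩ hc
  rw [if_pos hc]
  obtain ⟨A', hA'⟩ : ∃ A' : Finset (P × V × V), A' = A.filter (fun s => S.E.ctr s.2.2 = c) :=
    ⟨_, rfl⟩
  have hAm : ∀ s, s ∈ A' ↔ (s ∈ Φ.Sr ∧ ∀ β ∈ Bl.B (S.E.ctr s.2.2) (Bl.cls s), s ∉ β) ∧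
      S.E.ctr s.2.2 = c := by
    intro s
    rw [hA', hA, Finset.mem_filter, Finset.mem_filter]
  rw [← hA']
  have hcls : ∀ s ∈ A', Bl.cls s ∈ Finset.range (Bl.km + 1) := by
    intro s hs
    have := Bl.hkm s ((hAm s).1 hs).1.1
    rw [Finset.mem_range]
    omega
  rw [← Finset.sum_fiberwise_of_maps_to hcls]
  obtain ⟨Ks, hKs⟩ : ∃ Ks : Finset ℕ, Ks = (Finset.range (Bl.km + 1)).filter
      (fun k => ∃ s ∈ A', Bl.cls s = k) := ⟨_, rfl⟩
  have h1 : ∑ k ∈ Ks, (1 / 2 : ℝ) ^ (k + 1) ≤ 2 * gl c := by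
    refine geo_sum_le Ks (gl c) (hg c) ?_
    intro k hk
    rw [hKs, Finset.mem_filter] at hk
    obtain ⟨_, s, hs, rfl⟩ := hk
    have h2 := (hAm s).1 hs
    have h3 := h s h2.1.1
    rw [h2.2] at h3
    exact ((Bl.hcls s h2.1.1).1.le).trans h3
  have h2 : ∀ k ∈ Finset.range (Bl.km + 1), ∑ s ∈ A' with Bl.cls s = k, Φ.ms s ≤
      if k ∈ Ks then 4 * (1 / 2 : ℝ) ^ (k + 1) else 0 := by
    intro k hk
    split_ifs with hkK
    · have h3 : ∀ s ∈ A'.filter (fun s => Bl.cls s = k), Φ.ms s ≤ (1 / 2 : ℝ) ^ k := by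
        intro s hs
        rw [Finset.mem_filter] at hs
        have := (Bl.hcls s ((hAm s).1 hs.1).1.1).2
        rwa [hs.2] at this
      have h4 : (A'.filter (fun s => Bl.cls s = k)).card ≤ 2 := by
        refine le_trans (Finset.card_le_card ?_) (Bl.left c k)
        intro s hs
        rw [Finset.mem_filter] at hs
        obtain ⟨⟨h5, h6⟩, h7⟩ := (hAm s).1 hs.1
        rw [Finset.mem_filter]
        refine ⟨h5, ⟨h7, hs.2⟩, ?_⟩
        rw [h7, hs.2] at h6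
        exact h6
      refine (Finset.sum_le_card_nsmul _ _ _ h3).trans ?_
      rw [nsmul_eq_mul]
      have h5 : ((A'.filter (fun s => Bl.cls s = k)).card : ℝ) ≤ 2 := by exact_mod_cast h4
      have h6 : (0 : ℝ) ≤ (1 / 2) ^ k := by positivity
      calc ((A'.filter (fun s => Bl.cls s = k)).card : ℝ) * (1 / 2) ^ k ≤ 2 * (1 / 2) ^ k :=
            mul_le_mul_of_nonneg_right h5 h6
        _ = 4 * (1 / 2 : ℝ) ^ (k + 1) := by rw [pow_succ]; ring
    · rw [Finset.sum_eq_zero]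
      intro s hs
      rw [Finset.mem_filter] at hs
      exfalso
      apply hkK
      rw [hKs, Finset.mem_filter]
      exact ⟨hk, s, hs.1, hs.2⟩
  refine (Finset.sum_le_sum h2).trans ?_
  rw [← Finset.sum_filter]
  have h3 : (Finset.range (Bl.km + 1)).filter (fun k => k ∈ Ks) = Ks := by
    ext k
    rw [Finset.mem_filter, hKs, Finset.mem_filter]
    constructor
    · exact fun h => h.2
    · exact fun h => ⟨h.1, h⟩
  rw [h3, ← Finset.mul_sum]
  linarith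

open Classical in
theorem blocks_sum (Bl : Bk Φ) :
    ∑ s ∈ Φ.Sr with ¬ (∀ β ∈ Bl.B (S.E.ctr s.2.2) (Bl.cls s), s ∉ β), Φ.ms s ≤
      6 * ∑ x ∈ Bl.T0, bmu x := by
  have hb0 : ∀ x : V × ℕ × Finset (P × V × V), 0 ≤ bmu x := by
    intro x
    unfold bmu
    positivity
  have h1 : ∀ s ∈ Φ.Sr.filter (fun s => ¬ (∀ β ∈ Bl.B (S.E.ctr s.2.2) (Bl.cls s), s ∉ β)),
      Φ.ms s ≤ ∑ x ∈ Bl.T0, if s ∈ x.2.2 then 2 * bmu x else 0 := by
    intro s hs
    obtain ⟨hs1, hs2⟩ := Finset.mem_filter.1 hs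
    push Not at hs2
    obtain ⟨β, hβ, hsβ⟩ := hs2
    have hx : (S.E.ctr s.2.2, Bl.cls s, β) ∈ Bl.T0 :=
      (Bl.mem_T0 _).2 ⟨Bl.hkm s hs1, hβ⟩
    refine le_trans ?_ (Finset.single_le_sum (f := fun x : V × ℕ × Finset (P × V × V) =>
      if s ∈ x.2.2 then 2 * bmu x else 0) ?_ hx)
    · simp only
      rw [if_pos hsβ]
      refine (Bl.hcls s hs1).2.trans (le_of_eq ?_)
      unfold bmu
      simp only
      rw [pow_succ]
      ring
    · intro x _
      show 0 ≤ if s ∈ x.2.2 then 2 * bmu x else 0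
      split_ifs
      · exact mul_nonneg (by norm_num) (hb0 x)
      · exact le_rfl
  refine (Finset.sum_le_sum h1).trans ?_
  rw [Finset.sum_comm, Finset.mul_sum]
  refine Finset.sum_le_sum fun x hx => ?_
  have hcard : x.2.2.card = 3 := Bl.card _ _ _ ((Bl.mem_T0 x).1 hx).2
  refine le_trans (Finset.sum_le_sum_of_subset_of_nonneg (Finset.subset_univ _) ?_) ?_
  · intro s _ _
    split_ifs
    · exact mul_nonneg (by norm_num) (hb0 x)
    · exact le_rfl
  · rw [← Finset.sum_filter]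
    have h2 : (Finset.univ.filter (fun s => s ∈ x.2.2)) = x.2.2 := by
      ext s
      simp
    rw [h2, Finset.sum_const, hcard, nsmul_eq_mul]
    push_cast
    linarith

/-- the centres of the cells with sources -/
theorem cen_sum (hD : D.Ok) (Φ : Fl S e0 D0 M) (gl : V → ℝ) (hg : ∀ c, 0 ≤ gl c) (A B : ℝ) (hA : 0 ≤ A)
    (hB : 0 ≤ B) (h1 : ∀ z ∈ S.Z, gl z ≤ A)
    (h2 : ∀ p ∉ S.Bd, D.x p ∉ S.Z → gl (D.x p) ≤ B * (1 / ((D.sg (D.x p) : ℝ) + D.L))) :
    open Classical in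
    ∑ c : V, (if (∃ s ∈ Φ.Sr, S.E.ctr s.2.2 = c) then gl c else 0) ≤
      A * S.Z.ncard + B * ∑ p : P, (if p ∈ S.Bd then 0 else 1 / ((D.sg (D.x p) : ℝ) + D.L)) := by
  classical
  have hw0 : ∀ p : P, (0 : ℝ) ≤ if p ∈ S.Bd then 0 else 1 / ((D.sg (D.x p) : ℝ) + D.L) := by
    intro p
    split_ifs
    · exact le_rfl
    · positivity
  have key : ∀ c : V, (if (∃ s ∈ Φ.Sr, S.E.ctr s.2.2 = c) then gl c else 0) ≤
      (if c ∈ S.Z then A else 0) + ∑ p : P, (if D.x p = c then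
        B * (if p ∈ S.Bd then 0 else 1 / ((D.sg (D.x p) : ℝ) + D.L)) else 0) := by
    intro c
    have hs0 : (0 : ℝ) ≤ ∑ p : P, (if D.x p = c then
        B * (if p ∈ S.Bd then 0 else 1 / ((D.sg (D.x p) : ℝ) + D.L)) else 0) := by
      refine Finset.sum_nonneg fun p _ => ?_
      by_cases hpc : D.x p = c
      · rw [if_pos hpc]
        exact mul_nonneg hB (hw0 p)
      · rw [if_neg hpc]
    by_cases hc : ∃ s ∈ Φ.Sr, S.E.ctr s.2.2 = c
    swap
    · rw [if_neg hc]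
      have : (0 : ℝ) ≤ if c ∈ S.Z then A else 0 := by
        split_ifs
        · exact hA
        · exact le_rfl
      linarith
    rw [if_pos hc]
    by_cases hcZ : c ∈ S.Z
    · rw [if_pos hcZ]
      have := h1 c hcZ
      linarith
    rw [if_neg hcZ, zero_add]
    obtain ⟨s, hs, hsc⟩ := hc
    obtain ⟨_, ⟨_, _, hadj⟩, _, _⟩ := Φ.mAl _ _ _ ((Φ.mem_Sr s).1 hs).1
    have hVN : s.2.2 ∈ D.VN := by
      left
      have h4 : s.2.1 ∈ D.N.neighborSet s.2.2 := hadj.symm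
      have h5 := (Set.ncard_pos (Set.toFinite (D.N.neighborSet s.2.2))).2 ⟨_, h4⟩
      unfold deg
      omega
    have hmem := S.E.ctr_mem _ hVN
    rw [hsc] at hmem
    rcases hmem with hmem | ⟨p, hp, hpc⟩
    · exact absurd hmem hcZ
    have h3 : gl c ≤ B * (1 / ((D.sg (D.x p) : ℝ) + D.L)) := by
      rw [← hpc]
      exact h2 p hp (by rw [hpc]; exact hcZ)
    refine h3.trans ?_
    refine le_trans (le_of_eq ?_) (Finset.single_le_sum (f := fun p : P => if D.x p = c then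
        B * (if p ∈ S.Bd then 0 else 1 / ((D.sg (D.x p) : ℝ) + D.L)) else 0) ?_
        (Finset.mem_univ p))
    · rw [if_pos hpc, if_neg hp]
    · intro p _
      show 0 ≤ if D.x p = c then B * (if p ∈ S.Bd then 0 else 1 / ((D.sg (D.x p) : ℝ) + D.L)) else 0
      by_cases hpc : D.x p = c
      · rw [if_pos hpc]
        exact mul_nonneg hB (hw0 p)
      · rw [if_neg hpc]
  refine (Finset.sum_le_sum fun c _ => key c).trans ?_
  rw [Finset.sum_add_distrib]
  apply add_le_add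
  · rw [← Finset.sum_filter, Finset.sum_const, nsmul_eq_mul]
    have h3 : (Finset.univ.filter (fun c => c ∈ S.Z)).card = S.Z.ncard := by
      rw [← Set.ncard_coe_finset]
      congr 1
      ext c
      simp
    rw [h3, mul_comm]
  · rw [Finset.sum_comm, Finset.mul_sum]
    refine Finset.sum_le_sum fun p _ => ?_
    rw [Finset.sum_ite_eq]
    simp

end Pool.Agent.Helper23.HH
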