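import Pool.Agent.Helper93.HH.Sys

/-!
# HH-XL: two pins of the same hub (`xlem`), pins of three hubs near every pin (`claimC`)
-/

set_option autoImplicit false

open Set
open Pool.Agent.Helper83.OP
open Pool.Agent.Helper93.HH
open Pool.Agent.Helper93.HH.HD

namespace Pool.Agent.Helper23.HH

variable {V P Q : Type} [Finite V] [Finite P] [Finite Q] {D : HD V P Q} {K : ℕ}

theorem pt_spec {p : P} (h : D.gp p < Nat.card V) :
    D.pt p ≠ p ∧ Nr D.N (D.gp p) (D.x p) (D.x (D.pt p)) := by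
  have h1 := D.gp_spec h
  unfold HD.pt
  rw [dif_pos h1]
  exact h1.choose_spec

/-- the properties of one of the two pins -/
private theorem half (hD : D.Ok) (hK : 10 ≤ K) (hN : D.NoPl K) {p p' : P} (hne : p ≠ p')
    (hh : D.hub p = D.hub p') (hp : ¬ D.Thick (D.x p)) {l : ℕ}
    (hd : Nr D.N l (D.x p) (D.x p')) (h1 : 1000 * l < K * D.sg (D.x p)) :
    K * D.gp p ≤ 2 * l ∧ 4 * D.gp p < D.sg (D.x p) ∧ D.pt p ≠ p ∧
      Nr D.N (D.gp p) (D.x p) (D.x (D.pt p)) ∧ D.hub (D.pt p) ≠ D.hub p ∧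
      10 * l < K * D.Rv (D.x p) ∧ K * D.L < l := by
  have hL : K * D.L < l := hN.e2 p p' hne hh l hd
  have hL2 : 2 ≤ D.L := hD.r_pos.trans hD.r_le
  have hKL : K * 2 ≤ K * D.L := Nat.mul_le_mul_left K hL2
  have hRv : D.sg (D.x p) ≤ 100 * D.Rv (D.x p) := not_lt.1 hp
  have hR : 10 * l < K * D.Rv (D.x p) := by
    have h2 : K * D.sg (D.x p) ≤ K * (100 * D.Rv (D.x p)) := Nat.mul_le_mul_left K hRv
    have h3 : K * (100 * D.Rv (D.x p)) = 100 * (K * D.Rv (D.x p)) := by ring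
    omega
  have hg : K * D.gp p ≤ 2 * l := by
    by_contra hcon
    push Not at hcon
    obtain ⟨m, hm⟩ : ∃ m, m = min (D.gp p) (D.Rv (D.x p)) := ⟨_, rfl⟩
    have hm1 : m ≤ D.gp p := hm ▸ min_le_left _ _
    have hm2 : m ≤ D.Rv (D.x p) := hm ▸ min_le_right _ _
    have hKm : 2 * l < K * m := by
      rcases min_choice (D.gp p) (D.Rv (D.x p)) with h | h
      · rw [hm, h]
        exact hcon
      · rw [hm, h]
        omega
    have hm0 : 1 ≤ m := by
      by_contra h0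
      have h0' : m = 0 := by omega
      rw [h0'] at hKm
      omega
    obtain ⟨ρ, rfl⟩ : ∃ ρ, m = ρ + 1 := ⟨m - 1, by omega⟩
    have hKρ : K * (ρ + 1) = K * ρ + K := by ring
    have hLρ : D.L ≤ ρ := by
      by_contra h0
      have h2 : ρ + 1 ≤ D.L := by omega
      have h3 := Nat.mul_le_mul_left K h2
      omega
    have h4 := hN.e2' p p' hne hh l hd ρ hLρ (fun q hq => D.gp_min (by omega) hq)
      (D.Rv_min (by omega))
    omega
  have h4 : 4 * D.gp p < D.sg (D.x p) := by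
    have h5 : K * (4 * D.gp p) < K * D.sg (D.x p) := by
      have h6 : K * (4 * D.gp p) = 4 * (K * D.gp p) := by ring
      omega
    exact Nat.lt_of_mul_lt_mul_left h5
  have hgc : D.gp p < Nat.card V := by
    have := D.sg_le_card (D.x p)
    omega
  obtain ⟨hpt1, hpt2⟩ := pt_spec hgc
  refine ⟨hg, h4, hpt1, hpt2, ?_, hR, hL⟩
  intro hcon
  have h5 := hN.e2 p (D.pt p) hpt1.symm hcon.symm (D.gp p) hpt2
  obtain ⟨g, hg'⟩ : ∃ g, D.gp p = g + 1 := ⟨D.gp p - 1, by omega⟩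
  have hgR : D.gp p < D.Rv (D.x p) := by
    have h6 : K * D.gp p < K * D.Rv (D.x p) := by omega
    exact Nat.lt_of_mul_lt_mul_left h6
  have hKL' : D.L ≤ K * D.L := Nat.le_mul_of_pos_left _ (by omega)
  have h7 := hN.e2' p (D.pt p) hpt1.symm hcon.symm (D.gp p) hpt2 g (by omega)
    (fun q hq => D.gp_min (by omega) hq) (D.Rv_min (by omega))
  have h8 : 10 * g ≤ K * g := Nat.mul_le_mul_right g hK
  omega

/-- equal hubs of the partners are impossible (ordered form) -/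
private theorem third (hN : D.NoPl K) {p p' : P} (hne : p ≠ p')
    (hh : D.hub p = D.hub p') {l : ℕ} (hd : Nr D.N l (D.x p) (D.x p'))
    (h1 : 1000 * l < K * D.sg (D.x p)) (h2 : K * D.gp p ≤ 2 * l) (h3 : D.pt p ≠ p)
    (h4 : Nr D.N (D.gp p) (D.x p) (D.x (D.pt p))) (h5 : D.hub (D.pt p) ≠ D.hub p)
    (h6 : 10 * l < K * D.Rv (D.x p)) (h7 : K * D.L < l) (hL2 : 2 ≤ D.L) (h3' : D.pt p' ≠ p')
    (h4' : Nr D.N (D.gp p') (D.x p') (D.x (D.pt p'))) (hle : D.gp p' ≤ D.gp p) :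
    D.hub (D.pt p) ≠ D.hub (D.pt p') := by
  intro hcon
  have hKL : K * 2 ≤ K * D.L := Nat.mul_le_mul_left K hL2
  obtain ⟨m, hm⟩ : ∃ m, m = min (D.sg (D.x p)) (D.Rv (D.x p)) := ⟨_, rfl⟩
  have hm1 : m ≤ D.sg (D.x p) := hm ▸ min_le_left _ _
  have hm2 : m ≤ D.Rv (D.x p) := hm ▸ min_le_right _ _
  have hKm : 10 * l < K * m := by
    rcases min_choice (D.sg (D.x p)) (D.Rv (D.x p)) with h | h
    · rw [hm, h]
      omega
    · rw [hm, h]
      exact h6
  have hm0 : 1 ≤ m := by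
    by_contra h0
    have h0' : m = 0 := by omega
    rw [h0'] at hKm
    omega
  obtain ⟨ρ, rfl⟩ : ∃ ρ, m = ρ + 1 := ⟨m - 1, by omega⟩
  have hKρ : K * (ρ + 1) = K * ρ + K := by ring
  have hLρ : D.L ≤ ρ := by
    by_contra h0
    have h8 : ρ + 1 ≤ D.L := by omega
    have h9 := Nat.mul_le_mul_left K h8
    omega
  have hgρ : 4 * D.gp p ≤ ρ := by
    by_contra h0
    have h8 : ρ + 1 ≤ 4 * D.gp p := by omega
    have h9 := Nat.mul_le_mul_left K h8
    have h10 : K * (4 * D.gp p) = 4 * (K * D.gp p) := by ring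
    omega
  have h8 := hN.e3 p p' (D.pt p) (D.pt p') hne h3 h3' hh hcon h5 (D.gp p) (D.gp p') l h4 h4'
    (by first | exact hle | exact fun s hs => hle.trans (D.gp_le_of h3 hs)) hd
    ρ hLρ hgρ ?_ (D.Rv_min (by omega))
  · omega
  · intro s hs1 hs2 hs3
    have h9 := D.sg_three (y := D.x p) (t := ρ) (p := p) (q := D.pt p) (s := s) h3.symm hs1.symm
      hs2.symm (Nr.refl _ _ _) (h4.mono (by omega)) hs3
    omega

theorem xlem (hD : D.Ok) (hK : 10 ≤ K) (hN : D.NoPl K) {p p' : P} (hne : p ≠ p')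
    (hh : D.hub p = D.hub p') (hp : ¬ D.Thick (D.x p)) (hp' : ¬ D.Thick (D.x p')) {l : ℕ}
    (hl : D.L ≤ l) (hd : Nr D.N l (D.x p) (D.x p')) (h1 : 1000 * l < K * D.sg (D.x p))
    (h2 : 1000 * l < K * D.sg (D.x p')) :
    (K * D.gp p ≤ 2 * l ∧ 4 * D.gp p < D.sg (D.x p) ∧ Nr D.N (D.gp p) (D.x p) (D.x (D.pt p))) ∧
    (K * D.gp p' ≤ 2 * l ∧ 4 * D.gp p' < D.sg (D.x p') ∧
      Nr D.N (D.gp p') (D.x p') (D.x (D.pt p'))) ∧
    D.hub (D.pt p) ≠ D.hub p ∧ D.hub (D.pt p') ≠ D.hub p ∧ D.hub (D.pt p) ≠ D.hub (D.pt p') := by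
  have hL2 : 2 ≤ D.L := hD.r_pos.trans hD.r_le
  obtain ⟨a1, a2, a3, a4, a5, a6, a7⟩ := half hD hK hN hne hh hp hd h1
  obtain ⟨b1, b2, b3, b4, b5, b6, b7⟩ := half hD hK hN hne.symm hh.symm hp' hd.symm h2
  refine ⟨⟨a1, a2, a4⟩, ⟨b1, b2, b4⟩, a5, ?_, ?_⟩
  · rw [hh]
    exact b5
  · rcases le_total (D.gp p') (D.gp p) with hle | hle
    · exact third hN hne hh hd h1 a1 a3 a4 a5 a6 a7 hL2 b3 b4 hle
    · exact (third hN hne.symm hh.symm hd.symm h2 b1 b3 b4 b5 b6 b7 hL2 a3 a4 hle).symm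

/-- Claim C: near every pin there are pins of three hubs or a pin of `Bd` -/
theorem claimC (hD : D.Ok) (hK : 4000 ≤ K) (hN : D.NoPl K) (Bd : Set P)
    (h1 : ∀ p, D.Thick (D.x p) → p ∈ Bd) (p : P) (hp : D.sg (D.x p) < Nat.card V) :
    (∃ b ∈ Bd, Nr D.N (8 * (D.sg (D.x p) + D.L)) (D.x p) (D.x b)) ∨
    ∃ s : Fin 3 → P, (∀ i j, i ≠ j → D.hub (s i) ≠ D.hub (s j)) ∧
      ∀ i, s i ∉ Bd ∧ Nr D.N (8 * (D.sg (D.x p) + D.L)) (D.x p) (D.x (s i)) := by
  obtain ⟨n, hn⟩ : ∃ n, n = D.sg (D.x p) := ⟨_, rfl⟩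
  induction n using Nat.strong_induction_on generalizing p with
  | _ n ih =>
    by_cases hB : ∃ b ∈ Bd, Nr D.N (8 * (D.sg (D.x p) + D.L)) (D.x p) (D.x b)
    · exact Or.inl hB
    have hB' : ∀ q, Nr D.N (8 * (D.sg (D.x p) + D.L)) (D.x p) (D.x q) → q ∉ Bd :=
      fun q hq hqB => hB ⟨q, hqB, hq⟩
    right
    have hmk : ∀ a b c : P, D.hub a ≠ D.hub b → D.hub a ≠ D.hub c → D.hub b ≠ D.hub c →
        Nr D.N (8 * (D.sg (D.x p) + D.L)) (D.x p) (D.x a) →
        Nr D.N (8 * (D.sg (D.x p) + D.L)) (D.x p) (D.x b) →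
        Nr D.N (8 * (D.sg (D.x p) + D.L)) (D.x p) (D.x c) →
        ∃ s : Fin 3 → P, (∀ i j, i ≠ j → D.hub (s i) ≠ D.hub (s j)) ∧
          ∀ i, s i ∉ Bd ∧ Nr D.N (8 * (D.sg (D.x p) + D.L)) (D.x p) (D.x (s i)) := by
      intro a b c hab hac hbc ha hb hc
      refine ⟨![a, b, c], ?_, ?_⟩
      · intro i j hij
        fin_cases i <;> fin_cases j
        · exact absurd rfl hij
        · exact hab
        · exact hac
        · exact hab.symm
        · exact absurd rfl hij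
        · exact hbc
        · exact hac.symm
        · exact hbc.symm
        · exact absurd rfl hij
      · intro i
        fin_cases i
        · exact ⟨hB' a ha, ha⟩
        · exact ⟨hB' b hb, hb⟩
        · exact ⟨hB' c hc, hc⟩
    -- two pins of the same hub
    have key : ∀ u v : P, u ≠ v → D.hub u = D.hub v → Nr D.N (D.sg (D.x p)) (D.x p) (D.x u) →
        Nr D.N (D.sg (D.x p)) (D.x p) (D.x v) →
        ∃ s : Fin 3 → P, (∀ i j, i ≠ j → D.hub (s i) ≠ D.hub (s j)) ∧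
          ∀ i, s i ∉ Bd ∧ Nr D.N (8 * (D.sg (D.x p) + D.L)) (D.x p) (D.x (s i)) := by
      intro u v huv huvh hu hv
      have hd : Nr D.N (D.sg (D.x p) + D.sg (D.x p)) (D.x u) (D.x v) := hu.symm.trans hv
      have hL : K * D.L < D.sg (D.x p) + D.sg (D.x p) := hN.e2 u v huv huvh _ hd
      have hKL : 4000 * D.L ≤ K * D.L := Nat.mul_le_mul_right _ hK
      -- the recursive step
      have hrec : ∀ z : P, Nr D.N (D.sg (D.x p)) (D.x p) (D.x z) →
          K * D.sg (D.x z) ≤ 1000 * (2 * (D.sg (D.x p) + D.L)) →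
          ∃ s : Fin 3 → P, (∀ i j, i ≠ j → D.hub (s i) ≠ D.hub (s j)) ∧
            ∀ i, s i ∉ Bd ∧ Nr D.N (8 * (D.sg (D.x p) + D.L)) (D.x p) (D.x (s i)) := by
        intro z hz hKz
        have hz4 : 4000 * D.sg (D.x z) ≤ K * D.sg (D.x z) := Nat.mul_le_mul_right _ hK
        rcases ih (D.sg (D.x z)) (by omega) z (by omega) rfl with ⟨b, hb, hbz⟩ | ⟨s, hs1, hs2⟩
        · exact absurd ⟨b, hb, (hz.trans hbz).mono (by omega)⟩ hB
        · exact ⟨s, hs1, fun i => ⟨(hs2 i).1, (hz.trans (hs2 i).2).mono (by omega)⟩⟩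
      by_cases hu1 : K * D.sg (D.x u) ≤ 1000 * (2 * (D.sg (D.x p) + D.L))
      · exact hrec u hu hu1
      by_cases hv1 : K * D.sg (D.x v) ≤ 1000 * (2 * (D.sg (D.x p) + D.L))
      · exact hrec v hv hv1
      push Not at hu1 hv1
      have hut : ¬ D.Thick (D.x u) := fun h => hB' u (hu.mono (by omega)) (h1 u h)
      have hvt : ¬ D.Thick (D.x v) := fun h => hB' v (hv.mono (by omega)) (h1 v h)
      obtain ⟨⟨a1, -, a3⟩, ⟨b1, -, b3⟩, c1, c2, c3⟩ := xlem (l := 2 * (D.sg (D.x p) + D.L)) hD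
        (by omega) hN huv huvh hut hvt (by omega) (hd.mono (by omega)) hu1 hv1
      have ha4 : 4000 * D.gp u ≤ K * D.gp u := Nat.mul_le_mul_right _ hK
      have hb4 : 4000 * D.gp v ≤ K * D.gp v := Nat.mul_le_mul_right _ hK
      exact hmk u (D.pt u) (D.pt v) c1.symm c2.symm c3 (hu.mono (by omega))
        ((hu.trans a3).mono (by omega)) ((hv.trans b3).mono (by omega))
    obtain ⟨a, b, c, hab, hac, hbc, ha, hb, hc⟩ := D.sg_three' hp
    by_cases e1 : D.hub a = D.hub b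
    · exact key a b hab e1 ha hb
    by_cases e2 : D.hub a = D.hub c
    · exact key a c hac e2 ha hc
    by_cases e3 : D.hub b = D.hub c
    · exact key b c hbc e3 hb hc
    exact hmk a b c e1 e2 e3 (ha.mono (by omega)) (hb.mono (by omega)) (hc.mono (by omega))

end Pool.Agent.Helper23.HH
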